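import Pool.Agent.Helper30.ML.Goals

/-!
Packet ML-KX (project ML, MP_bf413e_co): colourings with equal colours at two neighbours of a vertex of
degree at most five.
-/

set_option autoImplicit false

namespace Pool.Agent.Helper69.ML

open scoped Classical
open Finset
open Pool.Agent.Helper30.ML
open Pool.Agent.Helper94.KC (dR QG Proper KEq AllEq)

theorem pKX (hD4 : StmtD4) (hKP : StmtKP) : StmtKX := by
  intro V _ G v x y hd hxy hvx hvy hdel f g hf hg hfx hgx
  refine hKP V G x y (hD4 V _ v ?_ hdel) f g hf hg hfx hgx
  have hsub : univ.filter (fun z => (QG G (cr x y)).Adj v z) ⊆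
      ((univ.filter (fun z => G.Adj v z)).erase y).image (cr x y) := by
    intro z hz
    obtain ⟨-, u, u', hu, hu', huu⟩ := (mem_filter.1 hz).2
    have huv : u = v := by
      unfold cr at hu
      split_ifs at hu with h
      · exact absurd hu hvx.ne'
      · exact hu
    rw [huv] at huu
    rw [mem_image]
    by_cases h : u' = y
    · refine ⟨x, mem_erase.2 ⟨hxy, by simp [hvx]⟩, ?_⟩
      rw [← hu', h]
      simp [cr]
    · exact ⟨u', mem_erase.2 ⟨h, by simp [huu]⟩, hu'⟩
  have h1 := card_le_card hsub
  have h2 : (((univ.filter (fun z => G.Adj v z)).erase y).image (cr x y)).card ≤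
      ((univ.filter (fun z => G.Adj v z)).erase y).card := card_image_le
  have h3 : ((univ.filter (fun z => G.Adj v z)).erase y).card =
      (univ.filter (fun z => G.Adj v z)).card - 1 := card_erase_of_mem (by simp [hvy])
  have h4 : (univ.filter (fun z => G.Adj v z)).card ≤ 5 := hd
  show (univ.filter (fun z => (QG G (cr x y)).Adj v z)).card ≤ 4
  omega

end Pool.Agent.Helper69.ML
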