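import Pool.Agent.Helper30.ML.Goals

/-!
Packet ML-SD (project ML, MP_bf413e_co): MacLane graphs have a vertex of small degree and no complete
subgraph with five vertices.
-/

set_option autoImplicit false

namespace Pool.Agent.Helper69.ML

open scoped Classical
open Finset
open Pool.Agent.Helper30.ML
open Pool.Agent.Helper94.KC (dR Even2)

lemma sd1 (hRB : StmtRB) (hRC : StmtRC) (V : Type) [Fintype V] (G : SimpleGraph V) (hG : Mac G)
    (h3 : 3 ≤ ni G) : (eG G).card + 6 ≤ 3 * ni G := by
  obtain ⟨m, f, hf⟩ := hG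
  have hedge : ∃ a b, G.Adj a b := by
    have h0 : 0 < ni G := by omega
    unfold ni at h0
    obtain ⟨x, hx⟩ := card_pos.1 h0
    obtain ⟨y, hy⟩ := (mem_filter.1 hx).2
    exact ⟨x, y, hy⟩
  obtain ⟨I, hI, hind⟩ := hRB V G m f hf hedge
  rcases I.eq_empty_or_nonempty with h | h
  · rw [h, card_empty] at hI
    omega
  · have := hRC V G m f I hf h hind
    omega

lemma dR_le (V : Type) [Fintype V] (G : SimpleGraph V) (x : V) :
    dR G univ x ≤ ((eG G).filter (fun e => x ∈ e)).card := by
  unfold dR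
  refine card_le_card_of_injOn (fun y => ({x, y} : Finset V)) ?_ ?_
  · intro y hy
    have h1 : G.Adj x y := (mem_filter.1 hy).2
    simp only [eG, coe_filter, mem_filter, mem_univ, true_and, Set.mem_setOf_eq]
    exact ⟨⟨x, y, h1, rfl⟩, by simp⟩
  · intro y hy z hz h
    have h1 : G.Adj x y := (mem_filter.1 hy).2
    have h2 : y ∈ ({x, z} : Finset V) := by
      have h3 : ({x, y} : Finset V) = {x, z} := h
      rw [← h3]; simp
    rcases mem_insert.1 h2 with h3 | h3
    · exact absurd h3.symm h1.ne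
    · exact mem_singleton.1 h3

lemma sum_dR (V : Type) [Fintype V] (G : SimpleGraph V) :
    ∑ x : V, dR G univ x ≤ 2 * (eG G).card := by
  calc ∑ x : V, dR G univ x ≤ ∑ x : V, ((eG G).filter (fun e => x ∈ e)).card :=
        sum_le_sum fun x _ => dR_le V G x
    _ = ∑ e ∈ eG G, (univ.filter (fun x : V => x ∈ e)).card := by
        simp only [card_filter]
        exact sum_comm
    _ ≤ ∑ e ∈ eG G, 2 := by
        refine sum_le_sum fun e he => ?_
        obtain ⟨u, v, -, rfl⟩ := (mem_filter.1 he).2
        have : (univ.filter (fun x : V => x ∈ ({u, v} : Finset V))) = {u, v} := by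
          ext x; simp
        rw [this]
        exact card_le_two
    _ = 2 * (eG G).card := by rw [sum_const, smul_eq_mul, mul_comm]

lemma sd2 (hRB : StmtRB) (hRC : StmtRC) (V : Type) [Fintype V] (G : SimpleGraph V) (hG : Mac G)
    (he : ∃ a b, G.Adj a b) : ∃ x, 1 ≤ dR G univ x ∧ dR G univ x ≤ 5 := by
  by_contra hcon
  push Not at hcon
  obtain ⟨a, b, hab⟩ := he
  have ha1 : 1 ≤ dR G univ a := by
    unfold dR
    exact card_pos.2 ⟨b, by simp [hab]⟩
  have ha := hcon a ha1
  have hni : dR G univ a ≤ ni G := by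
    unfold dR ni
    refine card_le_card fun y hy => ?_
    have h1 : G.Adj a y := (mem_filter.1 hy).2
    exact mem_filter.2 ⟨mem_univ _, a, h1.symm⟩
  have h1 := sd1 hRB hRC V G hG (by omega)
  have h2 := sum_dR V G
  have h3 : 6 * ni G ≤ ∑ x : V, dR G univ x := by
    calc 6 * ni G = ∑ x ∈ univ.filter (fun x => ∃ y, G.Adj x y), 6 := by
          rw [sum_const, smul_eq_mul, mul_comm]
          rfl
      _ ≤ ∑ x ∈ univ.filter (fun x => ∃ y, G.Adj x y), dR G univ x := by
          refine sum_le_sum fun x hx => ?_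
          obtain ⟨y, hy⟩ := (mem_filter.1 hx).2
          have hx1 : 1 ≤ dR G univ x := by
            unfold dR
            exact card_pos.2 ⟨y, by simp [hy]⟩
          exact hcon x hx1
      _ ≤ ∑ x : V, dR G univ x := sum_le_sum_of_subset (filter_subset _ _)
  omega

/-- the complete graph on the values of `w` -/
def KG {V : Type} (w : Fin 5 → V) (hw : Function.Injective w) : SimpleGraph V where
  Adj a b := ∃ i j, i ≠ j ∧ w i = a ∧ w j = b
  symm := ⟨by
    rintro a b ⟨i, j, h, hi, hj⟩
    exact ⟨j, i, h.symm, hj, hi⟩⟩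
  loopless := ⟨by
    rintro a ⟨i, j, h, hi, hj⟩
    exact h (hw (hi.trans hj.symm))⟩

lemma sd3 (hRB : StmtRB) (hRC : StmtRC) (hSU : StmtSU) (V : Type) [Fintype V] (G : SimpleGraph V)
    (w : Fin 5 → V) (hG : Mac G) : ¬ ∀ i j, i ≠ j → G.Adj (w i) (w j) := by
  intro hall
  have hw : Function.Injective w := by
    intro i j hij
    by_contra h
    exact (hall i j h).ne hij
  have hle : KG w hw ≤ G := by
    rintro a b ⟨i, j, h, rfl, rfl⟩
    exact hall i j h
  have hM := hSU V G (KG w hw) hle hG
  have hni : univ.filter (fun x => ∃ y, (KG w hw).Adj x y) = univ.image w := by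
    ext x
    simp only [mem_filter, mem_univ, true_and, mem_image]
    constructor
    · rintro ⟨y, i, j, -, hi, -⟩
      exact ⟨i, hi⟩
    · rintro ⟨i, rfl⟩
      exact ⟨w (i + 1), i, i + 1, by simp, rfl, rfl⟩
  have hni5 : ni (KG w hw) = 5 := by
    unfold ni
    rw [hni, card_image_of_injective _ hw]
    simp
  have h1 := sd1 hRB hRC V (KG w hw) hM (by omega)
  have h10 : 10 ≤ (eG (KG w hw)).card := by
    have h2 : ((univ : Finset (Fin 5)).powersetCard 2).card = 10 := by
      rw [card_powersetCard]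
      rfl
    rw [← h2]
    refine card_le_card_of_injOn (fun s => s.image w) ?_ ?_
    · intro s hs
      have hs2 := (mem_powersetCard.1 hs).2
      obtain ⟨i, j, hij, rfl⟩ := card_eq_two.1 hs2
      simp only [eG, coe_filter, mem_univ, true_and, Set.mem_setOf_eq]
      exact ⟨w i, w j, ⟨i, j, hij, rfl, rfl⟩, by simp [image_insert]⟩
    · intro s _ t _ hst
      exact image_injective hw hst
  omega

theorem pSD (hRB : StmtRB) (hRC : StmtRC) (hSU : StmtSU) : StmtSD :=
  ⟨fun V _ G hG h3 => sd1 hRB hRC V G hG h3, fun V _ G hG he => sd2 hRB hRC V G hG he,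
    fun V _ G w hG => sd3 hRB hRC hSU V G w hG⟩

end Pool.Agent.Helper69.ML
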